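import Pool.Agent.Lib.MP_a1d272_co.Step

/-!
# The set-mapping parameter of a `k`-graph is linear in the number of edges

For a `k`-graph `G` without isolated vertices, `w(G) ≤ C_k e(G)`.

Proof idea: embed the vertices in batches. Each batch consists of one vertex of maximum degree
together with all vertices whose accumulated expected conflict load is large; the images of a
batch are chosen by a local lemma whose events are the conflicts inside the embedded part and
whose soft (truncated linear) constraints keep the load of every other vertex below `1`.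
A weighted total of the loads stays bounded by a constant times the number of batches.
-/

namespace Pool.Agent.Results.MP_a1d272_co.LinearBound

open Finset

/-- The edges of the complete `k`-graph on the vertex set `Fin N`: the `k`-subsets of `Fin N`. -/
abbrev KEdge (N k : ℕ) : Type := {e : Finset (Fin N) // e.card = k}

/-- The property in the definition of `w(G)` for the number `N`. The `k`-graph `G` has vertex set
`V` and edge set `E`. For every map `f` from the edges of the complete `k`-graph on `Fin N` to its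
edges with `f e ∩ e = ∅` for all `e`, some copy of `G` (the image of `G` under an injection
`φ : V → Fin N`) has `f e ∩ φ(V) = ∅` for every edge `e` of the copy. -/
def SetMappingProperty (k : ℕ) {V : Type} [Fintype V] (E : Finset (Finset V)) (N : ℕ) : Prop :=
  ∀ f : KEdge N k → KEdge N k, (∀ e, Disjoint (f e).1 e.1) →
    ∃ φ : V ↪ Fin N, ∀ e : KEdge N k, (∃ a ∈ E, a.map φ = e.1) →
      Disjoint (f e).1 (univ.map φ)

/-- `w(G)`: the least `N₀` such that the property holds for every `N ≥ N₀`. -/
noncomputable def w (k : ℕ) {V : Type} [Fintype V] (E : Finset (Finset V)) : ℕ :=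
  sInf {N₀ : ℕ | ∀ N, N₀ ≤ N → SetMappingProperty k E N}

open Pool.Agent.MPa1d272 in
lemma property_of_large {k : ℕ} (hk : 1 ≤ k) {V : Type} [Fintype V] (E : Finset (Finset V))
    (hE : ∀ e ∈ E, e.card = k) (iso : ∀ v, ∃ e ∈ E, v ∈ e) (N : ℕ)
    (hN : 32 * (k + 1) * (7 * k ^ 2 + (64 * k * (k + 1) * 2 ^ k) ^ (k - 1)
      * (1024 * k ^ 2 * (k + 1) * 2 ^ k)) * E.card ≤ N) : SetMappingProperty k E N := by
  classical
  intro f hf
  rcases E.eq_empty_or_nonempty with hE0 | hE0
  · subst hE0
    have hV : IsEmpty V := ⟨fun v => by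
      obtain ⟨e, he, _⟩ := iso v
      exact absurd he (notMem_empty e)⟩
    refine ⟨⟨fun v => (hV.false v).elim, fun v => (hV.false v).elim⟩, ?_⟩
    rintro e ⟨a, ha, _⟩
    exact absurd ha (notMem_empty a)
  have hm : 1 ≤ E.card := card_pos.2 hE0
  have hNpos : 0 < N := by
    refine lt_of_lt_of_le ?_ hN
    have h1 : 0 < 7 * k ^ 2 := by positivity
    exact Nat.mul_pos (Nat.mul_pos (by positivity) (by omega)) hm
  have : NeZero N := ⟨hNpos.ne'⟩
  let g : Finset (Fin N) → Finset (Fin N) := fun s => if h : s.card = k then (f ⟨s, h⟩).1 else ∅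
  have hg : ∀ s, (g s).card ≤ k := by
    intro s
    simp only [g]
    split_ifs with h
    · exact (f ⟨s, h⟩).2.le
    · simp
  let G : Ctx V (Fin N) := ⟨k, E, g, hk, hE, iso, hg, hE0⟩
  have large : 32 * ((G.k : ℝ) + 1) * (7 * G.k ^ 2 + G.M ^ (G.k - 1) * G.M1) * G.mm ≤ G.N := by
    have h1 : G.N = (N : ℝ) := by simp [Ctx.N]
    rw [h1]
    unfold Ctx.M Ctx.M1 Ctx.mm
    exact_mod_cast hN
  obtain ⟨φ, hinj, hfree⟩ := G.embed large
  refine ⟨⟨φ, fun x y h => hinj x y h⟩, ?_⟩
  rintro e ⟨a, ha, hae⟩
  have h1 : a.image φ = e.1 := by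
    rw [← hae, map_eq_image]; rfl
  rw [Finset.disjoint_left]
  intro p hp hp'
  obtain ⟨v, _, rfl⟩ := mem_map.1 hp'
  change φ v ∈ (f e).1 at hp
  by_cases hva : v ∈ a
  · have h2 : φ v ∈ e.1 := by rw [← h1]; exact mem_image_of_mem _ hva
    exact (disjoint_left.1 (hf e) hp) h2
  · refine hfree a ha v hva ?_
    change φ v ∈ g (a.image φ)
    rw [h1]
    simp only [g]
    rw [dif_pos e.2]
    exact hp

/-- For every `k ≥ 1` there is a constant `C` such that for every `k`-graph `G` without isolated
vertices, with vertex set `V` and edge set `E`, the property defining `w(G)` holds for every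
`N ≥ C e(G)`; in particular `w(G) ≤ C e(G)`. -/
theorem result (k : ℕ) (hk : 1 ≤ k) : ∃ C : ℕ, ∀ (V : Type) [Fintype V] (E : Finset (Finset V)),
    (∀ e ∈ E, e.card = k) → (∀ v, ∃ e ∈ E, v ∈ e) →
      (∀ N, C * E.card ≤ N → SetMappingProperty k E N) ∧ w k E ≤ C * E.card := by
  refine ⟨32 * (k + 1) * (7 * k ^ 2 + (64 * k * (k + 1) * 2 ^ k) ^ (k - 1)
      * (1024 * k ^ 2 * (k + 1) * 2 ^ k)), fun V _ E hE iso => ?_⟩
  have h := property_of_large hk E hE iso
  exact ⟨h, Nat.sInf_le h⟩

end Pool.Agent.Results.MP_a1d272_co.LinearBound
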